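import Pool.Agent.Helper54.PT.DefsF

/-!
# TE module B3: the classes of points are isotropic
-/

set_option autoImplicit false
set_option synthInstance.maxSize 1024

namespace Pool.Agent.Helper54.PT

open Finset Module

theorem b3_pz_self : ∀ a : ZMod 2 × ZMod 2, pz a a = 0 := by
  decide +kernel

theorem b3_pz_comm (a b : ZMod 2 × ZMod 2) : pz a b = pz b a := by
  simp only [pz]
  ring

theorem b3_add_self : ∀ a : ZMod 2 × ZMod 2, a + a = 0 := by
  decide +kernel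

theorem b3_sab : ∀ a b s : ZMod 2 × ZMod 2, pz (a + s) (b + s) = 0 →
    pz a b = pz (a + b) s := by
  decide +kernel

theorem b3_l1 : ∀ a b k A B G : ZMod 2 × ZMod 2, pz a b = pz (a + b) (k + A) →
    pz a b = pz b (k + B) → pz a b = pz a (k + G) →
    qL (A + G) (A + B) (mkL a b) = 0 ∧ bL (mkL a b) (mkL (A + B) (k + A)) = 0 ∧
      bL (mkL a b) (mkL (k + A) (A + G)) = 0 ∧ bL (mkL a b) (mkL (k + B) (k + G)) = 0 := by
  decide +kernel

/-- The three relations satisfied by the classes of a point. -/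
def B3P (k A B G a b : ZMod 2 × ZMod 2) : Prop :=
  pz a b = pz (a + b) (k + A) ∧ pz a b = pz b (k + B) ∧ pz a b = pz a (k + G)

instance (k A B G a b : ZMod 2 × ZMod 2) : Decidable (B3P k A B G a b) := by
  unfold B3P
  infer_instance

theorem b3_l2 : ∀ k A B G : ZMod 2 × ZMod 2, pz B A = pz (B + A) G →
    B3P k A B G (A + B) (k + A) ∧ B3P k A B G (k + A) (A + G) ∧
      B3P k A B G (k + B) (k + G) := by
  decide +kernel

theorem b3_l3 : ∀ a b a' b' s : ZMod 2 × ZMod 2, pz a a' = pz (a + a') s →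
    pz b b' = pz (b + b') s → pz (a + b) (a' + b') = pz (a + b + (a' + b')) s →
    bL (mkL a b) (mkL a' b') = 0 := by
  decide +kernel

theorem b3_l4 : ∀ a b A B k : ZMod 2 × ZMod 2, pz a b = pz (a + b) (k + A) →
    pz a (a + b) = pz (a + (a + b)) (k + B) → pz a b = pz b (k + B) := by
  decide +kernel

theorem b3_l5 : ∀ a b G k : ZMod 2 × ZMod 2,
    pz b (a + b) = pz (b + (a + b)) (k + G) → pz a b = pz a (k + G) := by
  decide +kernel

theorem b3_bL_comm (w w' : LS) : bL w w' = bL w' w := by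
  simp only [bL]
  ring

theorem b3_bL_self (a b : ZMod 2 × ZMod 2) : bL (mkL a b) (mkL a b) = 0 := by
  revert a b
  decide +kernel

section

variable {K : Type} [Field K] {c : K → ZMod 2 × ZMod 2}

theorem b3_one (hc : IsCls c) : c 1 = 0 := by
  have h := hc.mul 1 1 one_ne_zero one_ne_zero
  rw [mul_one] at h
  have h2 := b3_add_self (c 1)
  rw [h2] at h
  exact h

theorem b3_neg (hc : IsCls c) {x : K} (hx : x ≠ 0) : c (-x) = c x := by
  have h := hc.mul (-1) x (neg_ne_zero.mpr one_ne_zero) hx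
  rw [hc.neg, zero_add] at h
  rw [← h]
  congr 1
  ring

theorem b3_inv (hc : IsCls c) {x : K} (hx : x ≠ 0) : c x⁻¹ = c x := by
  have h := hc.mul x x⁻¹ hx (inv_ne_zero hx)
  rw [mul_inv_cancel₀ hx, b3_one hc] at h
  have h2 : c x + (c x + c x⁻¹) = c x := by rw [← h, add_zero]
  rw [← add_assoc, b3_add_self, zero_add] at h2
  exact h2

theorem b3_div (hc : IsCls c) {x s : K} (hx : x ≠ 0) (hs : s ≠ 0) : c (x / s) = c x + c s := by
  rw [div_eq_mul_inv, hc.mul x s⁻¹ hx (inv_ne_zero hs), b3_inv hc hs]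

/-- The relation for a difference. -/
theorem b3_S (hc : IsCls c) {a b s : K} (ha : a ≠ 0) (hb : b ≠ 0) (hs : s ≠ 0)
    (h : a - b = s) : pz (c a) (c b) = pz (c a + c b) (c s) := by
  apply b3_sab
  rw [← b3_div hc ha hs, ← b3_neg hc hb, ← b3_div hc (neg_ne_zero.mpr hb) hs]
  apply hc.st _ _ (div_ne_zero ha hs) (div_ne_zero (neg_ne_zero.mpr hb) hs)
  rw [← add_div, ← sub_eq_add_neg, h, div_self hs]

theorem b3_gab (hc : IsCls c) {α β : K} (hα : α ≠ 0) (hβ : β ≠ 0) (hγ : β - α ≠ 0) :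
    pz (c β) (c α) = pz (c β + c α) (c (β - α)) :=
  b3_S hc hβ hα hγ rfl

/-- B3b: the classes of the points of order two pair trivially -/
theorem pz_g {c : K → ZMod 2 × ZMod 2} (hc : IsCls c) {α β : K} (hα : α ≠ 0) (hβ : β ≠ 0)
    (hγ : β - α ≠ 0) : pz (c (α * (β - α))) (c (α * β)) = 0 := by
  have h := b3_gab hc hα hβ hγ
  rw [hc.mul _ _ hα hγ, hc.mul _ _ hα hβ]
  revert h
  generalize c α = A
  generalize c β = B
  generalize c (β - α) = G
  revert A B G
  decide +kernel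

/-- The three relations for a point. -/
theorem b3_point (hc : IsCls c) {α β δ x : K} (hα : α ≠ 0) (hβ : β ≠ 0) (hγ : β - α ≠ 0)
    (hδ : δ ≠ 0) (hx : x ≠ 0) (hxα : x + δ * α ≠ 0) (hxβ : x + δ * β ≠ 0)
    (h : c x + c (x + δ * α) + c (x + δ * β) = 0) :
    B3P (c δ) (c α) (c β) (c (β - α)) (c x) (c (x + δ * α)) := by
  have hd : c (x + δ * β) = c x + c (x + δ * α) := by
    have h2 := b3_add_self (c (x + δ * β))
    have h3 : c x + c (x + δ * α) + c (x + δ * β) + c (x + δ * β) = c (x + δ * β) := by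
      rw [h, zero_add]
    rw [add_assoc, h2, add_zero] at h3
    exact h3.symm
  have h1 := b3_S hc hxα hx (mul_ne_zero hδ hα) (by ring : x + δ * α - x = δ * α)
  have h2 := b3_S hc hxβ hx (mul_ne_zero hδ hβ) (by ring : x + δ * β - x = δ * β)
  have h3 := b3_S hc hxβ hxα (mul_ne_zero hδ hγ)
    (by ring : x + δ * β - (x + δ * α) = δ * (β - α))
  rw [hc.mul _ _ hδ hα, b3_pz_comm, add_comm (c (x + δ * α))] at h1
  rw [hc.mul _ _ hδ hβ, hd, b3_pz_comm, add_comm (c x + c (x + δ * α))] at h2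
  rw [hc.mul _ _ hδ hγ, hd, b3_pz_comm, add_comm (c x + c (x + δ * α))] at h3
  exact ⟨h1, b3_l4 _ _ _ _ _ h1 h2, b3_l5 _ _ _ _ h3⟩

/-- All elements of `LocK` satisfy the three relations. -/
theorem b3_locP (hc : IsCls c) {α β : K} (hα : α ≠ 0) (hβ : β ≠ 0) (hγ : β - α ≠ 0)
    (κ : ZMod 2 × ZMod 2) (w : LS) (hw : LocK c α β κ w) :
    ∃ a b, w = mkL a b ∧ B3P κ (c α) (c β) (c (β - α)) a b := by
  have hg := b3_gab hc hα hβ hγ
  obtain ⟨t1, t2, t3⟩ := b3_l2 κ (c α) (c β) (c (β - α)) hg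
  rcases hw with rfl | rfl | rfl | rfl | ⟨δ, x, hδ, rfl, hx, hxα, hxβ, h, rfl⟩
  · refine ⟨0, 0, ?_, ?_⟩
    · simp only [mkL]
      refine Prod.ext ?_ ?_ <;> funext i <;> fin_cases i <;> rfl
    · refine ⟨?_, ?_, ?_⟩ <;> simp [pz]
  · exact ⟨_, _, rfl, by rw [hc.mul _ _ hα hβ]; exact t1⟩
  · exact ⟨_, _, rfl, by rw [hc.mul _ _ hα hγ]; exact t2⟩
  · exact ⟨_, _, rfl, t3⟩
  · exact ⟨_, _, rfl, b3_point hc hα hβ hγ hδ hx hxα hxβ h⟩

/-- Two points on the same twist. -/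
theorem b3_two (hc : IsCls c) {α β δ x x' : K} (hx : x ≠ 0) (hxα : x + δ * α ≠ 0)
    (hxβ : x + δ * β ≠ 0) (h : c x + c (x + δ * α) + c (x + δ * β) = 0) (hx' : x' ≠ 0)
    (hxα' : x' + δ * α ≠ 0) (hxβ' : x' + δ * β ≠ 0)
    (h' : c x' + c (x' + δ * α) + c (x' + δ * β) = 0) :
    bL (mkL (c x) (c (x + δ * α))) (mkL (c x') (c (x' + δ * α))) = 0 := by
  by_cases hxx : x = x'
  · rw [hxx]
    exact b3_bL_self _ _
  · have hs : x - x' ≠ 0 := sub_ne_zero.mpr hxx
    have h1 := b3_S hc hx hx' hs rfl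
    have h2 := b3_S hc hxα hxα' hs (by ring)
    have h3 := b3_S hc hxβ hxβ' hs (by ring)
    have hd : c (x + δ * β) = c x + c (x + δ * α) := by
      have h2 := b3_add_self (c (x + δ * β))
      have h3 : c x + c (x + δ * α) + c (x + δ * β) + c (x + δ * β) = c (x + δ * β) := by
        rw [h, zero_add]
      rw [add_assoc, h2, add_zero] at h3
      exact h3.symm
    have hd' : c (x' + δ * β) = c x' + c (x' + δ * α) := by
      have h2 := b3_add_self (c (x' + δ * β))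
      have h3 : c x' + c (x' + δ * α) + c (x' + δ * β) + c (x' + δ * β) = c (x' + δ * β) := by
        rw [h', zero_add]
      rw [add_assoc, h2, add_zero] at h3
      exact h3.symm
    rw [hd, hd'] at h3
    exact b3_l3 _ _ _ _ _ h1 h2 h3

/-- B3: the classes of points are isotropic -/
theorem locK_iso {c : K → ZMod 2 × ZMod 2} (hc : IsCls c) {α β : K} (hα : α ≠ 0) (hβ : β ≠ 0)
    (hγ : β - α ≠ 0) (κ : ZMod 2 × ZMod 2) (w w' : LS) (hw : LocK c α β κ w)
    (hw' : LocK c α β κ w') : qL (c (α * (β - α))) (c (α * β)) w = 0 ∧ bL w w' = 0 := by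
  obtain ⟨a, b, hab, hP⟩ := b3_locP hc hα hβ hγ κ w hw
  obtain ⟨a', b', hab', hP'⟩ := b3_locP hc hα hβ hγ κ w' hw'
  obtain ⟨q1, q2, q3, q4⟩ := b3_l1 _ _ _ _ _ _ hP.1 hP.2.1 hP.2.2
  obtain ⟨q1', q2', q3', q4'⟩ := b3_l1 _ _ _ _ _ _ hP'.1 hP'.2.1 hP'.2.2
  rw [hc.mul _ _ hα hγ, hc.mul _ _ hα hβ]
  refine ⟨by rw [hab]; exact q1, ?_⟩
  have hbz : ∀ v : LS, bL v 0 = 0 := by
    intro v
    simp [bL]
  rcases hw' with h0 | h1 | h2 | h3 | ⟨δ', x', hδ', hκ', hx', hxα', hxβ', h', hw'⟩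
  · rw [h0]
    exact hbz w
  · rw [h1, hab, hc.mul _ _ hα hβ]
    exact q2
  · rw [h2, hab, hc.mul _ _ hα hγ]
    exact q3
  · rw [h3, hab]
    exact q4
  · rcases hw with h0 | h1 | h2 | h3 | ⟨δ, x, hδ, hκ, hx, hxα, hxβ, h, hw⟩
    · rw [h0, b3_bL_comm]
      exact hbz w'
    · rw [b3_bL_comm, h1, hab', hc.mul _ _ hα hβ]
      exact q2'
    · rw [b3_bL_comm, h2, hab', hc.mul _ _ hα hγ]
      exact q3'
    · rw [b3_bL_comm, h3, hab']
      exact q4'
    · have hu : δ / δ' ≠ 0 := div_ne_zero hδ hδ'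
      have hcu : c (δ / δ') = 0 := by
        rw [b3_div hc hδ hδ', hκ, hκ', b3_add_self]
      have hsc : ∀ z : K, z ≠ 0 → c (δ / δ' * z) = c z := by
        intro z hz
        rw [hc.mul _ _ hu hz, hcu, zero_add]
      have e1 : ∀ y : K, δ / δ' * x' + δ * y = δ / δ' * (x' + δ' * y) := by
        intro y
        field_simp
      have hk := b3_two (δ := δ) (α := α) (β := β) hc (x := x) (x' := δ / δ' * x') hx hxα hxβ h
        (mul_ne_zero hu hx') (by rw [e1]; exact mul_ne_zero hu hxα')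
        (by rw [e1]; exact mul_ne_zero hu hxβ')
        (by rw [e1, e1, hsc _ hx', hsc _ hxα', hsc _ hxβ']; exact h')
      rw [e1, hsc _ hx', hsc _ hxα'] at hk
      rw [hw, hw']
      exact hk

end

end Pool.Agent.Helper54.PT
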