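import Pool.Agent.Helper54.PT.DefsF

/-!
# TE module B4: isotropic sets are contained in Lagrangians
-/

set_option autoImplicit false
set_option synthInstance.maxSize 1024

namespace Pool.Agent.Helper54.PT

open Finset Module

theorem b4_qL_add (g₁ g₂ : ZMod 2 × ZMod 2) (a b : LS) :
    qL g₁ g₂ (a + b) = qL g₁ g₂ a + qL g₁ g₂ b + bL a b := by
  simp only [qL, bL, Prod.fst_add, Prod.snd_add, Pi.add_apply]
  ring

theorem b4_d1 : ∀ g₁ g₂ : ZMod 2 × ZMod 2, pz g₁ g₂ = 0 → ∀ x y z t : ZMod 2,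
    qL g₁ g₂ (![x, y], ![z, t]) = 0 → ∃ x' y' z' t' : ZMod 2,
      ¬ (x' = 0 ∧ y' = 0 ∧ z' = 0 ∧ t' = 0) ∧ ¬ (x' = x ∧ y' = y ∧ z' = z ∧ t' = t) ∧
      qL g₁ g₂ (![x', y'], ![z', t']) = 0 ∧ bL (![x, y], ![z, t]) (![x', y'], ![z', t']) = 0 := by
  decide +kernel

theorem b4_d2 : ∀ x y z t x' y' z' t' x'' y'' z'' t'' : ZMod 2,
    bL (![x, y], ![z, t]) (![x', y'], ![z', t']) = 0 →
    bL (![x, y], ![z, t]) (![x'', y''], ![z'', t'']) = 0 →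
    bL (![x', y'], ![z', t']) (![x'', y''], ![z'', t'']) = 0 →
    ¬ (x = 0 ∧ y = 0 ∧ z = 0 ∧ t = 0) → ¬ (x' = 0 ∧ y' = 0 ∧ z' = 0 ∧ t' = 0) →
    ¬ (x' = x ∧ y' = y ∧ z' = z ∧ t' = t) → 
    (x'' = 0 ∧ y'' = 0 ∧ z'' = 0 ∧ t'' = 0) ∨ (x'' = x ∧ y'' = y ∧ z'' = z ∧ t'' = t) ∨
    (x'' = x' ∧ y'' = y' ∧ z'' = z' ∧ t'' = t') ∨
    (x'' = x + x' ∧ y'' = y + y' ∧ z'' = z + z' ∧ t'' = t + t') := by
  decide +kernel

theorem b4_eta (w : LS) : w = (![w.1 0, w.1 1], ![w.2 0, w.2 1]) := by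
  refine Prod.ext ?_ ?_ <;> funext i <;> fin_cases i <;> rfl

theorem b4_ext (w w' : LS) :
    w = w' ↔ (w.1 0 = w'.1 0 ∧ w.1 1 = w'.1 1 ∧ w.2 0 = w'.2 0 ∧ w.2 1 = w'.2 1) := by
  constructor
  · rintro rfl
    exact ⟨rfl, rfl, rfl, rfl⟩
  · rintro ⟨h1, h2, h3, h4⟩
    rw [b4_eta w, b4_eta w', h1, h2, h3, h4]

theorem b4_e1 (g₁ g₂ : ZMod 2 × ZMod 2) (hg : pz g₁ g₂ = 0) (a : LS) (ha : qL g₁ g₂ a = 0) :
    ∃ b : LS, b ≠ 0 ∧ b ≠ a ∧ qL g₁ g₂ b = 0 ∧ bL a b = 0 := by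
  rw [b4_eta a] at ha
  obtain ⟨x, y, z, t, h0, h1, h2, h3⟩ := b4_d1 g₁ g₂ hg _ _ _ _ ha
  refine ⟨(![x, y], ![z, t]), ?_, ?_, h2, ?_⟩
  · intro h
    rw [b4_ext] at h
    exact h0 (by simpa using h)
  · intro h
    rw [b4_ext] at h
    exact h1 (by simpa using h)
  · rw [b4_eta a]
    exact h3

theorem b4_e2 (a b c : LS) (hab : bL a b = 0) (hac : bL a c = 0) (hbc : bL b c = 0) (ha : a ≠ 0)
    (hb : b ≠ 0) (hba : b ≠ a) : c = 0 ∨ c = a ∨ c = b ∨ c = a + b := by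
  rw [Ne, b4_ext] at ha hb hba
  rw [b4_ext, b4_ext, b4_ext, b4_ext]
  rw [b4_eta a, b4_eta b] at hab
  rw [b4_eta a, b4_eta c] at hac
  rw [b4_eta b, b4_eta c] at hbc
  exact b4_d2 _ _ _ _ _ _ _ _ _ _ _ _ hab hac hbc ha hb hba

theorem b4_zmod (s : ZMod 2) : s = 0 ∨ s = 1 := by
  revert s
  decide

theorem b4_mem (a b w : LS) : w ∈ Submodule.span (ZMod 2) {a, b} ↔
    w = 0 ∨ w = a ∨ w = b ∨ w = a + b := by
  rw [Submodule.mem_span_pair]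
  constructor
  · rintro ⟨s, t, rfl⟩
    rcases b4_zmod s with rfl | rfl <;> rcases b4_zmod t with rfl | rfl <;> simp
  · rintro (rfl | rfl | rfl | rfl)
    · exact ⟨0, 0, by simp⟩
    · exact ⟨1, 0, by simp⟩
    · exact ⟨0, 1, by simp⟩
    · exact ⟨1, 1, by simp⟩

theorem b4_add_self (a : LS) : a + a = 0 := by
  rw [b4_ext]
  refine ⟨?_, ?_, ?_, ?_⟩ <;> exact CharTwo.add_self_eq_zero _

theorem b4_span (g₁ g₂ : ZMod 2 × ZMod 2) (a b : LS) (ha : a ≠ 0) (hb : b ≠ 0) (hba : b ≠ a)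
    (hqa : qL g₁ g₂ a = 0) (hqb : qL g₁ g₂ b = 0) (hab : bL a b = 0) :
    finrank (ZMod 2) (Submodule.span (ZMod 2) {a, b}) = 2 ∧
      ∀ w ∈ Submodule.span (ZMod 2) {a, b}, qL g₁ g₂ w = 0 := by
  constructor
  · have hli : LinearIndependent (ZMod 2) ![a, b] := by
      rw [LinearIndependent.pair_iff]
      intro s t hst
      rcases b4_zmod s with rfl | rfl <;> rcases b4_zmod t with rfl | rfl
      · exact ⟨rfl, rfl⟩
      · exfalso
        apply hb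
        simpa using hst
      · exfalso
        apply ha
        simpa using hst
      · exfalso
        apply hba
        simp only [one_smul] at hst
        have : a + (a + b) = a := by rw [hst, add_zero]
        rw [← add_assoc, b4_add_self, zero_add] at this
        exact this
    have h1 := finrank_span_eq_card hli
    have h2 : Set.range ![a, b] = ({a, b} : Set LS) := by
      ext w
      simp [eq_comm, or_comm]
    rw [h2] at h1
    simpa using h1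
  · intro w hw
    rw [b4_mem] at hw
    rcases hw with rfl | rfl | rfl | rfl
    · simp [qL]
    · exact hqa
    · exact hqb
    · rw [b4_qL_add, hqa, hqb, hab]
      rfl

/-- B4: isotropic sets are contained in Lagrangians -/
theorem exists_lag (g₁ g₂ : ZMod 2 × ZMod 2) (hg : pz g₁ g₂ = 0) (W : LS → Prop)
    (h : ∀ w w', W w → W w' → qL g₁ g₂ w = 0 ∧ bL w w' = 0) :
    ∃ M : Submodule (ZMod 2) LS, finrank (ZMod 2) M = 2 ∧ (∀ w ∈ M, qL g₁ g₂ w = 0) ∧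
      ∀ w, W w → w ∈ M := by
  have hq0 : qL g₁ g₂ 0 = 0 := by simp [qL]
  by_cases h1 : ∃ a, a ≠ 0 ∧ W a
  · obtain ⟨a, ha, hWa⟩ := h1
    by_cases h2 : ∃ b, b ≠ 0 ∧ b ≠ a ∧ W b
    · obtain ⟨b, hb, hba, hWb⟩ := h2
      obtain ⟨h3, h4⟩ := b4_span g₁ g₂ a b ha hb hba (h a a hWa hWa).1 (h b b hWb hWb).1
        (h a b hWa hWb).2
      refine ⟨_, h3, h4, fun w hw => ?_⟩
      rw [b4_mem]
      exact b4_e2 a b w (h a b hWa hWb).2 (h a w hWa hw).2 (h b w hWb hw).2 ha hb hba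
    · push Not at h2
      obtain ⟨b, hb, hba, hqb, hab⟩ := b4_e1 g₁ g₂ hg a (h a a hWa hWa).1
      obtain ⟨h3, h4⟩ := b4_span g₁ g₂ a b ha hb hba (h a a hWa hWa).1 hqb hab
      refine ⟨_, h3, h4, fun w hw => ?_⟩
      rw [b4_mem]
      by_cases hw0 : w = 0
      · exact Or.inl hw0
      · right
        left
        by_contra hwa
        exact h2 w hw0 hwa hw
  · push Not at h1
    obtain ⟨a, ha, -, hqa, -⟩ := b4_e1 g₁ g₂ hg 0 hq0
    obtain ⟨b, hb, hba, hqb, hab⟩ := b4_e1 g₁ g₂ hg a hqa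
    obtain ⟨h3, h4⟩ := b4_span g₁ g₂ a b ha hb hba hqa hqb hab
    refine ⟨_, h3, h4, fun w hw => ?_⟩
    rw [b4_mem]
    left
    by_contra hw0
    exact h1 w hw0 hw

end Pool.Agent.Helper54.PT
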